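import Mathlib

set_option autoImplicit false

namespace Pool.Agent.Results.MP_6d87e8_lc.Yes

open Set Function

universe u

/-- Strongly surjective: monotone surjections onto all nonempty suborders. -/
def SS (L : Type u) [LinearOrder L] : Prop :=
  ∀ K : Set L, K.Nonempty → ∃ f : L → K, Monotone f ∧ Surjective f

variable {L : Type u} [LinearOrder L]

theorem up (x : L) (k : L → L) (km : Monotone k)
    (k1 : ∀ z c, (Icc x z).Infinite → (Icc x c).Finite → c ≤ k z)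
    (k2 : ∀ w, x ≤ w → (∀ z, w < z → (Icc x z).Infinite) →
      ∃ z, (Icc x z).Infinite ∧ k z = w) :
    ∃ f : {y // y ≠ x} → L, Monotone f ∧ Surjective f := by
  classical
  have : ∀ z, x < z → (Icc x z).Finite → ∃ p, IsGreatest (Ico x z) p := fun z h hf => by
    obtain ⟨p, hp, h2⟩ := (hf.subset Ico_subset_Icc_self).exists_maximal ⟨x, le_rfl, h⟩
    exact ⟨p, hp, fun q hq => (le_total q p).elim id fun e => h2 hq e⟩
  choose! p hp using this
  refine ⟨fun z => if z.1 < x then z.1 else if (Icc x z.1).Finite then p z.1 else k z.1,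
    fun ⟨a, ha⟩ ⟨b, hb⟩ hab => ?_, fun w => ?_⟩
  · change a ≤ b at hab
    have h1 : ¬ a < x → x < a := fun h => lt_of_le_of_ne (not_lt.1 h) (Ne.symm ha)
    have h2 : ¬ b < x → x < b := fun h => lt_of_le_of_ne (not_lt.1 h) (Ne.symm hb)
    beta_reduce
    by_cases c1 : a < x
    · rw [if_pos c1]
      split_ifs with c2 c3
      · exact hab
      · exact c1.le.trans (hp b (h2 c2) c3).1.1
      · exact c1.le.trans (k1 _ _ c3 (by simp))
    have c4 : ¬ b < x := fun e => c1 (hab.trans_lt e)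
    rw [if_neg c1, if_neg c4]
    split_ifs with c6 c7 c8
    · exact (hp b (h2 c4) c7).2 (Ico_subset_Ico_right hab (hp a (h1 c1) c6).1)
    · have := (hp a (h1 c1) c6).1
      exact k1 _ _ c7 (c6.subset (Icc_subset_Icc_right this.2.le))
    · exact absurd (c8.subset (Icc_subset_Icc_right hab)) c6
    · exact km hab
  · rcases lt_or_ge w x with h | h
    · exact ⟨⟨w, h.ne⟩, if_pos h⟩
    by_cases h1 : ∀ z, w < z → (Icc x z).Infinite
    · obtain ⟨z, h2, h3⟩ := k2 w h h1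
      have : x < z := not_le.1 fun e => h2 ((finite_singleton x).subset fun y hy =>
        le_antisymm (hy.2.trans e) hy.1)
      refine ⟨⟨z, this.ne'⟩, ?_⟩
      beta_reduce
      rw [if_neg this.not_gt, if_neg h2, h3]
    push Not at h1
    obtain ⟨z0, h1, h2⟩ := h1
    obtain ⟨z, hz, h3⟩ := (h2.subset (Ioc_subset_Icc_self.trans (Icc_subset_Icc_left h))).exists_minimal
      ⟨z0, h1, le_rfl⟩
    have h4 : x < z := h.trans_lt hz.1
    have h5 := h2.subset (Icc_subset_Icc_right hz.2)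
    refine ⟨⟨z, h4.ne'⟩, ?_⟩
    beta_reduce
    rw [if_neg h4.not_gt, if_pos h5]
    refine (hp z h4 h5).unique ⟨⟨h, hz.1⟩, fun u hu => not_lt.1 fun e => ?_⟩
    exact (h3 ⟨e, hu.2.le.trans hz.2⟩ hu.2.le).not_gt hu.2

theorem half (x : L) : (∃ f : {y // y ≠ x} → L, Monotone f ∧ Surjective f) ∨
    ∃ m, x ≤ m ∧ (Icc x m).Finite ∧ (∀ y, m < y → ∃ y', m < y' ∧ y' < y) ∧
      ∀ g : L → L, Monotone g → (∀ w, m < w → ∃ z, g z = w) → (∃ z, g m < g z ∧ g z ≤ m) →
        ∃ f : {y // y ≠ x} → L, Monotone f ∧ Surjective f := by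
  by_cases h : ∃ m, x ≤ m ∧ (Icc x m).Finite ∧ ∀ z, m < z → (Icc x z).Infinite
  · obtain ⟨m, h1, h2, h3⟩ := h
    refine Or.inr ⟨m, h1, h2, fun y hy => by_contra fun hn => h3 y hy ?_, ?_⟩
    · push Not at hn
      refine (h2.insert y).subset fun u hu => ?_
      rcases le_or_gt u m with e | e
      · exact Or.inr ⟨hu.1, e⟩
      · exact Or.inl (le_antisymm hu.2 (hn u e))
    · rintro g g1 g2 ⟨z, g3, g4⟩
      refine up x (fun z => max m (g z)) (monotone_const.max g1)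
        (fun z c _ hc => le_max_of_le_left (not_lt.1 fun e => h3 c e hc)) fun w _ hw => ?_
      rcases (not_lt.1 fun e => hw m e h2).eq_or_lt with rfl | e
      · exact ⟨z, h3 z (g1.reflect_lt g3), max_eq_left g4⟩
      · obtain ⟨u, rfl⟩ := g2 w e
        exact ⟨u, h3 u (g1.reflect_lt ((g3.trans_le g4).trans e)), max_eq_right e.le⟩
  · exact Or.inl (up x id monotone_id (fun z c hz hc => not_lt.1 fun e =>
      hz (hc.subset (Icc_subset_Icc_right e.le))) fun w h1 h2 => ⟨w, fun h3 => h ⟨w, h1, h3, h2⟩, rfl⟩)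

theorem fin_ss [Finite L] : SS L := fun K hK => by
  have := hK.to_subtype
  have := Fintype.ofFinite K
  let _ := Fintype.toCompleteLinearOrderOfNonempty K
  exact ⟨fun z => sSup {k : K | k.1 ≤ z}, fun a b h => sSup_le_sSup fun k hk => le_trans hk h,
    fun k => ⟨k, isLUB_Iic.sSup_eq⟩⟩

theorem key (h : SS L) (x : L) :
    Finite L ∨ ∃ f : {y // y ≠ x} → L, Monotone f ∧ Surjective f := by
  rcases half x with e | ⟨m, a1, a2, a3, a4⟩
  · exact Or.inr e
  have dual : (∃ f : {y : Lᵒᵈ // y ≠ x} → Lᵒᵈ, Monotone f ∧ Surjective f) →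
    ∃ f : {y // y ≠ x} → L, Monotone f ∧ Surjective f :=
    fun ⟨f, f1, f2⟩ => ⟨f, fun _ _ e => f1 e, f2⟩
  rcases half (L := Lᵒᵈ) x with e | ⟨n, b1, b2, b3, b4⟩
  · exact Or.inr (dual e)
  change L at n
  have hf : (Icc n m).Finite := (a2.union b2).subset fun y hy =>
    (le_total x y).imp (fun e => ⟨e, hy.2⟩) fun e => ⟨e, hy.1⟩
  rcases (Icc n m)ᶜ.eq_empty_or_nonempty with e | e
  · exact Or.inl (finite_univ_iff.1 (compl_empty_iff.1 e ▸ hf))
  obtain ⟨g, g1, g2⟩ := h _ e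
  have g3 : ∀ w, w < n ∨ m < w → ∃ z, (g z).1 = w := fun w hw => by
    obtain ⟨z, hz⟩ := g2 ⟨w, fun e => hw.elim e.1.not_gt e.2.not_gt⟩
    exact ⟨z, by rw [hz]⟩
  have g4 : ∀ z, (g z).1 < n ∨ m < (g z).1 := fun z => by
    simpa only [mem_compl_iff, mem_Icc, not_and_or, not_le] using (g z).2
  have g5 : Monotone fun z => (g z).1 := g1
  have nm : n ≤ m := le_trans b1 a1
  right
  rcases g4 m with c1 | c1
  · obtain ⟨y, y1, y2⟩ := b3 _ c1
    obtain ⟨z, rfl⟩ := g3 y (Or.inl y1)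
    exact a4 _ g5 (fun w hw => g3 w (Or.inr hw)) ⟨z, y2, le_trans (le_of_lt y1) nm⟩
  rcases g4 n with c2 | c2
  · obtain ⟨c, hc, c3⟩ := (hf.subset (sep_subset _ fun c => (g c).1 < n)).exists_maximal
      ⟨n, ⟨le_rfl, nm⟩, c2⟩
    obtain ⟨y, y1, y2⟩ := b3 _ hc.2
    obtain ⟨z, rfl⟩ := g3 y (Or.inl y1)
    have d1 : c < z := g5.reflect_lt y2
    have d2 : z < m := g5.reflect_lt (lt_trans y1 (nm.trans_lt c1))
    exact absurd (c3 ⟨⟨hc.1.1.trans d1.le, d2.le⟩, y1⟩ d1.le) d1.not_ge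
  · obtain ⟨y, y1, y2⟩ := a3 _ c2
    obtain ⟨z, rfl⟩ := g3 y (Or.inr y1)
    exact dual (b4 (fun z => (g z).1) (fun _ _ e => g5 e) (fun w hw => g3 w (Or.inl hw))
      ⟨z, y2, nm.trans y1.le⟩)

theorem result (L : Type u) [LinearOrder L] (h : SS L) (x : L) : SS {y : L // y ≠ x} := by
  rcases key h x with e | ⟨f, f1, f2⟩
  · exact fin_ss
  intro K hK
  obtain ⟨g, g1, g2⟩ := h _ (hK.image Subtype.val)
  refine ⟨fun z => ⟨⟨g (f z), by obtain ⟨y, -, e⟩ := (g (f z)).2; exact e ▸ y.2⟩,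
    by obtain ⟨y, h, e⟩ := (g (f z)).2; exact (Subtype.ext e : y = ⟨_, _⟩) ▸ h⟩,
    fun a b e => g1 (f1 e), fun k => ?_⟩
  obtain ⟨z, hz⟩ := (g2.comp f2) ⟨k.1.1, k.1, k.2, rfl⟩
  have := congrArg Subtype.val hz
  exact ⟨z, Subtype.ext (Subtype.ext this)⟩

end Pool.Agent.Results.MP_6d87e8_lc.Yes
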